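import Pool.Agent.Q9.FJT.TreeA

/-!
# Subtrees with finitely many orbits
-/

set_option autoImplicit false

namespace Q9.FJG

open Pool.Agent.Q293.HP SimpleGraph

/-- a finitely generated group acting on a tree has an invariant subtree with finitely many orbits -/
theorem exists_subtree {G V : Type} [Group G] [MulAction G V] {T : SimpleGraph V} (hT : T.IsTree)
    (hadj : ∀ (g : G) (v w : V), T.Adj v w → T.Adj (g • v) (g • w))
    (S : Finset G) (hS : Subgroup.closure (S : Set G) = ⊤) :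
    ∃ (p : SubMulAction G V) (U : SimpleGraph p), U.IsTree ∧
      (∀ a b : p, U.Adj a b → T.Adj (a : V) (b : V)) ∧
      (∀ (g : G) (a b : p), U.Adj a b → U.Adj (g • a) (g • b)) ∧
      (∃ F : Set (p × p), F.Finite ∧ ∀ a b, U.Adj a b → ∃ g : G, ∃ e ∈ F, a = g • e.1 ∧ b = g • e.2) ∧
      (∃ F : Set p, F.Finite ∧ ∀ a : p, ∃ g : G, ∃ x ∈ F, a = g • x) := by
  classical
  obtain ⟨v0⟩ := hT.connected.nonempty
  obtain ⟨F1, hF1⟩ : ∃ F1 : Finset V, ∀ x, x ∈ F1 ↔ x = v0 ∨ ∃ s ∈ S, x ∈ (tp hT v0 (s • v0)).support := by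
    refine ⟨insert v0 (S.biUnion fun s => (tp hT v0 (s • v0)).support.toFinset), fun x => ?_⟩
    simp only [Finset.mem_insert, Finset.mem_biUnion, List.mem_toFinset]
  obtain ⟨F2, hF2⟩ : ∃ F2 : Finset (V × V), ∀ e, e ∈ F2 ↔ ∃ s ∈ S,
      ∃ d ∈ (tp hT v0 (s • v0)).darts, e = d.toProd ∨ e = d.toProd.swap := by
    refine ⟨S.biUnion fun s => ((tp hT v0 (s • v0)).darts.map (fun d => d.toProd)).toFinset ∪
      ((tp hT v0 (s • v0)).darts.map (fun d => d.toProd.swap)).toFinset, fun e => ?_⟩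
    simp only [Finset.mem_biUnion, Finset.mem_union, List.mem_toFinset, List.mem_map]
    constructor
    · rintro ⟨s, hs, ⟨d, hd, rfl⟩ | ⟨d, hd, rfl⟩⟩
      · exact ⟨s, hs, d, hd, Or.inl rfl⟩
      · exact ⟨s, hs, d, hd, Or.inr rfl⟩
    · rintro ⟨s, hs, d, hd, rfl | rfl⟩
      · exact ⟨s, hs, Or.inl ⟨d, hd, rfl⟩⟩
      · exact ⟨s, hs, Or.inr ⟨d, hd, rfl⟩⟩
  have hF2s : ∀ e ∈ F2, e.swap ∈ F2 := by
    intro e he
    obtain ⟨s, hs, d, hd, h⟩ := (hF2 e).1 he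
    refine (hF2 _).2 ⟨s, hs, d, hd, ?_⟩
    rcases h with rfl | rfl
    · exact Or.inr rfl
    · exact Or.inl (Prod.swap_swap _)
  have hF2a : ∀ e ∈ F2, T.Adj e.1 e.2 := by
    intro e he
    obtain ⟨s, hs, d, hd, h⟩ := (hF2 e).1 he
    rcases h with rfl | rfl
    · exact d.adj
    · exact d.adj.symm
  have hF21 : ∀ e ∈ F2, e.1 ∈ F1 := by
    intro e he
    obtain ⟨s, hs, d, hd, h⟩ := (hF2 e).1 he
    rcases h with rfl | rfl
    · exact (hF1 _).2 (Or.inr ⟨s, hs, Walk.dart_fst_mem_support_of_mem_darts _ hd⟩)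
    · exact (hF1 _).2 (Or.inr ⟨s, hs, Walk.dart_snd_mem_support_of_mem_darts _ hd⟩)
  have hF22 : ∀ e ∈ F2, e.2 ∈ F1 := fun e he => hF21 _ (hF2s e he)
  let p : SubMulAction G V :=
    { carrier := {v | ∃ g : G, ∃ x ∈ F1, v = g • x}
      smul_mem' := by
        rintro c _ ⟨g, x, hx, rfl⟩
        exact ⟨c * g, x, hx, (mul_smul _ _ _).symm⟩ }
  have hp : ∀ v, v ∈ p ↔ ∃ g : G, ∃ x ∈ F1, v = g • x := fun v => Iff.rfl
  have hpF : ∀ x ∈ F1, x ∈ p := fun x hx => (hp x).2 ⟨1, x, hx, (one_smul _ _).symm⟩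
  let U : SimpleGraph p :=
    { Adj := fun a b => ∃ g : G, ∃ e ∈ F2, (a : V) = g • e.1 ∧ (b : V) = g • e.2
      symm := ⟨by
        rintro a b ⟨g, e, he, h1, h2⟩
        exact ⟨g, e.swap, hF2s e he, h2, h1⟩⟩
      loopless := ⟨by
        rintro a ⟨g, e, he, h1, h2⟩
        have h3 := hadj g _ _ (hF2a e he)
        rw [← h1, ← h2] at h3
        exact T.loopless.irrefl _ h3⟩ }
  have hU : ∀ a b : p, U.Adj a b ↔ ∃ g : G, ∃ e ∈ F2, (a : V) = g • e.1 ∧ (b : V) = g • e.2 :=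
    fun a b => Iff.rfl
  have hUT : ∀ a b : p, U.Adj a b → T.Adj (a : V) (b : V) := by
    rintro a b ⟨g, e, he, h1, h2⟩
    rw [h1, h2]
    exact hadj g _ _ (hF2a e he)
  have hUg : ∀ (g : G) (a b : p), U.Adj a b → U.Adj (g • a) (g • b) := by
    rintro g a b ⟨g', e, he, h1, h2⟩
    refine ⟨g * g', e, he, ?_, ?_⟩
    · rw [mul_smul, ← h1]
      rfl
    · rw [mul_smul, ← h2]
      rfl
  -- reachability
  have hR1 : ∀ (x y : V) (w : T.Walk x y), (∀ d ∈ w.darts, d.toProd ∈ F2) → ∀ hx : x ∈ p,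
      ∀ z ∈ w.support, ∃ hz : z ∈ p, U.Reachable ⟨x, hx⟩ ⟨z, hz⟩ := by
    intro x y w
    induction w with
    | nil =>
      intro _ hx z hz
      rw [Walk.support_nil, List.mem_singleton] at hz
      subst hz
      exact ⟨hx, Reachable.refl _⟩
    | @cons a c b h w ih =>
      intro hd hx z hz
      have h1 : (a, c) ∈ F2 := by
        have := hd ⟨(a, c), h⟩ (by rw [Walk.darts_cons]; exact List.mem_cons_self)
        exact this
      have hc : c ∈ p := hpF _ (hF22 _ h1)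
      have hac : U.Adj ⟨a, hx⟩ ⟨c, hc⟩ := ⟨1, (a, c), h1, (one_smul _ _).symm, (one_smul _ _).symm⟩
      rw [Walk.support_cons, List.mem_cons] at hz
      rcases hz with rfl | hz
      · exact ⟨hx, Reachable.refl _⟩
      · obtain ⟨hz', h2⟩ := ih (fun d hd' => hd d (by rw [Walk.darts_cons]; exact List.mem_cons_of_mem _ hd')) hc z hz
        exact ⟨hz', hac.reachable.trans h2⟩
  have hv0 : v0 ∈ p := hpF _ ((hF1 _).2 (Or.inl rfl))
  have hR2 : ∀ s ∈ S, ∀ z ∈ (tp hT v0 (s • v0)).support, ∃ hz : z ∈ p,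
      U.Reachable ⟨v0, hv0⟩ ⟨z, hz⟩ := by
    intro s hs z hz
    exact hR1 _ _ (tp hT v0 (s • v0)) (fun d hd => (hF2 _).2 ⟨s, hs, d, hd, Or.inl rfl⟩) hv0 z hz
  have hRg : ∀ (g : G) (a b : p), U.Reachable a b → U.Reachable (g • a) (g • b) := by
    intro g a b h
    exact h.map (⟨fun v => g • v, fun h => hUg g _ _ h⟩ : U →g U)
  have hR3 : ∀ g : G, U.Reachable ⟨v0, hv0⟩ (g • ⟨v0, hv0⟩) := by
    intro g
    have hg : g ∈ Subgroup.closure (S : Set G) := by rw [hS]; trivial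
    induction hg using Subgroup.closure_induction with
    | mem s hs =>
      obtain ⟨hz, h⟩ := hR2 s hs (s • v0) (Walk.end_mem_support _)
      exact h
    | one => rw [one_smul]
    | mul g h _ _ ih1 ih2 =>
      rw [mul_smul]
      exact ih1.trans (hRg g _ _ ih2)
    | inv g _ ih =>
      have h1 := hRg g⁻¹ _ _ ih
      rw [inv_smul_smul] at h1
      exact h1.symm
  have hR4 : ∀ a : p, U.Reachable ⟨v0, hv0⟩ a := by
    rintro ⟨a, g, x, hx, rfl⟩
    have h1 : ∃ hx' : x ∈ p, U.Reachable ⟨v0, hv0⟩ ⟨x, hx'⟩ := by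
      rcases (hF1 x).1 hx with rfl | ⟨s, hs, hxs⟩
      · exact ⟨hv0, Reachable.refl _⟩
      · exact hR2 s hs x hxs
    obtain ⟨hx', h2⟩ := h1
    exact (hR3 g).trans (hRg g _ _ h2)
  have hconn : U.Connected := by
    have : Nonempty p := ⟨⟨v0, hv0⟩⟩
    exact ⟨fun a b => (hR4 a).symm.trans (hR4 b)⟩
  have hacy : U.IsAcyclic :=
    IsAcyclic.comap (⟨fun a : p => (a : V), fun h => hUT _ _ h⟩ : U →g T) Subtype.val_injective
      hT.isAcyclic
  refine ⟨p, U, ⟨hconn, hacy⟩, hUT, hUg, ⟨{e | ((e.1 : V), (e.2 : V)) ∈ F2}, ?_, ?_⟩,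
    ⟨{x | (x : V) ∈ F1}, ?_, ?_⟩⟩
  · refine (Finset.finite_toSet F2).preimage (f := fun e : p × p => ((e.1 : V), (e.2 : V))) ?_
    intro e _ e' _ h
    exact Prod.ext (Subtype.ext (congrArg Prod.fst h)) (Subtype.ext (congrArg Prod.snd h))
  · rintro a b ⟨g, e, he, h1, h2⟩
    exact ⟨g, (⟨e.1, hpF _ (hF21 e he)⟩, ⟨e.2, hpF _ (hF22 e he)⟩), he, Subtype.ext h1,
      Subtype.ext h2⟩
  · exact (Finset.finite_toSet F1).preimage Subtype.val_injective.injOn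
  · rintro ⟨a, g, x, hx, rfl⟩
    exact ⟨g, ⟨x, hpF x hx⟩, hx, rfl⟩

end Q9.FJG
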